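import Pool.Agent.MNT.StmtsA
import Pool.Agent.Helper75_BHT.A2

set_option autoImplicit false

/-!
# MNT, row ODA: odd annulus, archimedean case
-/

namespace Pool.Agent.MNT.H91

open Polynomial
open scoped Classical

theorem norm_eval_prod (s : Multiset ℂ) (y : ℂ) :
    ‖((s.map fun t => (X - C t : ℂ[X])).prod).eval y‖ = (s.map fun t => ‖y - t‖).prod := by
  induction s using Multiset.induction_on with
  | empty => simp
  | cons a s ih => simp [ih]

theorem log_prod_map (g : ℂ → ℝ) (hg : ∀ t, 0 < g t) (s : Multiset ℂ) :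
    0 < (s.map g).prod ∧ (s.map fun t => Real.log (g t)).sum = Real.log (s.map g).prod := by
  induction s using Multiset.induction_on with
  | empty => simp
  | cons a s ih =>
    simp only [Multiset.map_cons, Multiset.sum_cons, Multiset.prod_cons]
    refine ⟨mul_pos (hg a) ih.1, ?_⟩
    rw [Real.log_mul (hg a).ne' ih.1.ne', ih.2]

theorem prod_le (f g : ℂ → ℝ) (s : Multiset ℂ) (hf : ∀ t ∈ s, 0 ≤ f t) (h : ∀ t ∈ s, f t ≤ g t) :
    0 ≤ (s.map f).prod ∧ (s.map f).prod ≤ (s.map g).prod := by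
  induction s using Multiset.induction_on with
  | empty => simp
  | cons a s ih =>
    have h1 := ih (fun t ht => hf t (Multiset.mem_cons_of_mem ht))
      (fun t ht => h t (Multiset.mem_cons_of_mem ht))
    have h2 := hf a (Multiset.mem_cons_self a s)
    have h3 := h a (Multiset.mem_cons_self a s)
    simp only [Multiset.map_cons, Multiset.prod_cons]
    exact ⟨mul_nonneg h2 h1.1, mul_le_mul h3 h1.2 h1.1 (h2.trans h3)⟩

theorem sum_le (f g : ℂ → ℝ) (s : Multiset ℂ) (h : ∀ t, f t ≤ g t + Real.log 64) :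
    (s.map f).sum ≤ (s.map g).sum + (Multiset.card s : ℝ) * Real.log 64 := by
  induction s using Multiset.induction_on with
  | empty => simp
  | cons a s ih =>
    simp only [Multiset.map_cons, Multiset.sum_cons, Multiset.card_cons]
    push_cast
    have := h a
    linarith

/-- ODA -/
theorem oda (a1g : A1gStmt) (a2 : BHT.A2Stmt) : OdaStmt := by
  intro F x N U W c hF hs ζ r hr hodd hann
  have hG : U ^ 2 - (C c * (X - C x) ^ N) ^ 2 = F * W ^ 2 := by
    have := hs.eq
    linear_combination this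
  have h1 := a1g U (C c * (X - C x) ^ N) F W hG ζ (r / 2) r (by positivity) (by linarith) hodd hann
  obtain ⟨B, hB⟩ : ∃ B : ℝ, B = max r ‖x - ζ‖ := ⟨_, rfl⟩
  have hBr : r ≤ B := hB ▸ le_max_left _ _
  have hBx : ‖x - ζ‖ ≤ B := hB ▸ le_max_right _ _
  have hB0 : 0 < B := hr.trans_le hBr
  have hc : 0 < ‖c‖ := norm_pos_iff.2 hs.c_ne
  have hlead : ‖U.leadingCoeff‖ = ‖c‖ := by
    have h := congrArg norm hs.lead
    rw [norm_pow, norm_pow] at h
    exact (pow_left_inj₀ (norm_nonneg _) (norm_nonneg _) two_ne_zero).1 h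
  have hcard : Multiset.card U.roots = N := by
    rw [← hs.deg]
    exact (IsAlgClosed.splits U).natDegree_eq_card_roots.symm
  obtain ⟨near, hnear⟩ : ∃ near : Multiset ℂ, near = U.roots.filter fun t => ‖t - ζ‖ < 2 * r :=
    ⟨_, rfl⟩
  obtain ⟨far, hfar⟩ : ∃ far : Multiset ℂ, far = U.roots.filter fun t => ¬ ‖t - ζ‖ < 2 * r :=
    ⟨_, rfl⟩
  have hZ : U.roots = near + far := by
    rw [hnear, hfar, Multiset.filter_add_not]
  have hnm : ∀ t ∈ near, ‖t - ζ‖ < 2 * r := by
    intro t ht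
    rw [hnear] at ht
    exact (Multiset.mem_filter.1 ht).2
  have hfm : ∀ t ∈ far, 2 * r ≤ ‖t - ζ‖ := by
    intro t ht
    rw [hfar] at ht
    exact not_lt.1 (Multiset.mem_filter.1 ht).2
  obtain ⟨g, hg⟩ : ∃ g : ℂ → ℝ, ∀ t, g t = if ‖t - ζ‖ < 2 * r then r / 32 else ‖t - ζ‖ / 2 :=
    ⟨_, fun _ => rfl⟩
  have hg0 : ∀ t, 0 < g t := by
    intro t
    rw [hg]
    split_ifs with h
    · positivity
    · have := not_lt.1 h
      linarith
  have hgn : (near.map g).prod = (r / 32) ^ Multiset.card near := by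
    have h : near.map g = near.map fun _ => r / 32 :=
      Multiset.map_congr rfl fun t ht => by rw [hg, if_pos (hnm t ht)]
    rw [h, Multiset.map_const', Multiset.prod_replicate]
  obtain ⟨Pf, hPf⟩ : ∃ Pf : ℝ, Pf = (far.map g).prod := ⟨_, rfl⟩
  have hPf0 : 0 < Pf := hPf ▸ (log_prod_map g hg0 far).1
  obtain ⟨K₀, hK₀⟩ : ∃ K₀ : ℝ, K₀ = ‖c‖ * Pf / (‖c‖ * (2 * B) ^ N) := ⟨_, rfl⟩
  have hD : 0 < ‖c‖ * (2 * B) ^ N := by positivity
  have hK0 : 0 < K₀ := by
    rw [hK₀]
    positivity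
  obtain ⟨T, hT⟩ : ∃ T : ℂ[X], T = C (K₀ : ℂ) * (near.map fun t => (X - C t : ℂ[X])).prod :=
    ⟨_, rfl⟩
  have hmon : ((near.map fun t => (X - C t : ℂ[X])).prod).Monic :=
    monic_multiset_prod_of_monic _ _ fun t _ => monic_X_sub_C _
  have hKc : (K₀ : ℂ) ≠ 0 := by exact_mod_cast hK0.ne'
  have hTl : ‖T.leadingCoeff‖ = K₀ := by
    rw [hT, leadingCoeff_mul, leadingCoeff_C, hmon.leadingCoeff, mul_one, Complex.norm_real,
      Real.norm_of_nonneg hK0.le]
  have hTd : T.natDegree = Multiset.card near := by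
    rw [hT, natDegree_C_mul hKc, natDegree_multiset_prod_X_sub_C_eq_card]
  have h2 : ∀ ρ ∈ Set.Ioo (r / 2) r, ∃ y : ℂ, ‖y - ζ‖ = ρ ∧ ‖T.eval y‖ ≤ 1 := by
    intro ρ hρ
    obtain ⟨y, hy, hUy⟩ := h1 ρ hρ
    refine ⟨y, hy, ?_⟩
    rw [hT, eval_mul, eval_C, norm_mul, Complex.norm_real, Real.norm_of_nonneg hK0.le,
      norm_eval_prod]
    have h3 : ‖U.eval y‖ = ‖c‖ * ((near.map fun t => ‖y - t‖).prod *
        (far.map fun t => ‖y - t‖).prod) := by
      rw [BHT.a2_norm_eval, hlead, hZ, Multiset.map_add, Multiset.prod_add]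
    have h4 : Pf ≤ (far.map fun t => ‖y - t‖).prod := by
      rw [hPf]
      refine (prod_le g _ far (fun t _ => (hg0 t).le) ?_).2
      intro t ht
      have h5 := hfm t ht
      rw [hg, if_neg (not_lt.2 h5)]
      have h6 : ‖t - ζ‖ ≤ ‖y - t‖ + ‖y - ζ‖ := by
        have : t - ζ = -(y - t) + (y - ζ) := by ring
        calc ‖t - ζ‖ = ‖-(y - t) + (y - ζ)‖ := by rw [← this]
          _ ≤ ‖-(y - t)‖ + ‖y - ζ‖ := norm_add_le _ _
          _ = _ := by rw [norm_neg]
      have h7 := hρ.2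
      rw [hy] at h6
      linarith
    have h5 : ‖(C c * (X - C x) ^ N).eval y‖ ≤ ‖c‖ * (2 * B) ^ N := by
      rw [eval_mul, eval_C, eval_pow, eval_sub, eval_X, eval_C, norm_mul, norm_pow]
      refine mul_le_mul_of_nonneg_left (pow_le_pow_left₀ (norm_nonneg _) ?_ N) hc.le
      have : y - x = (y - ζ) - (x - ζ) := by ring
      rw [this]
      refine (norm_sub_le _ _).trans ?_
      have h7 := hρ.2
      rw [hy]
      linarith
    have h6 : 0 ≤ (near.map fun t => ‖y - t‖).prod :=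
      (prod_le (fun t => ‖y - t‖) _ near (fun t _ => norm_nonneg _) fun t _ => le_rfl).1
    have h7 : ‖c‖ * Pf * (near.map fun t => ‖y - t‖).prod ≤ ‖c‖ * (2 * B) ^ N := by
      refine le_trans ?_ (hUy.trans h5)
      rw [h3, mul_assoc, mul_comm Pf]
      exact mul_le_mul_of_nonneg_left (mul_le_mul_of_nonneg_left h4 h6) hc.le
    rw [hK₀, div_mul_eq_mul_div, div_le_one hD]
    exact h7
  have h3 := a2 T ζ (r / 2) r (by positivity) (by linarith) h2
  rw [hTl, hTd] at h3
  have h4 : (r - r / 2) / 16 = r / 32 := by ring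
  rw [h4] at h3
  have h5 : (U.roots.map g).prod ≤ (2 * B) ^ N := by
    rw [hZ, Multiset.map_add, Multiset.prod_add, hgn, ← hPf]
    rw [hK₀, div_mul_eq_mul_div, div_le_one hD, mul_assoc] at h3
    rw [mul_comm]
    exact le_of_mul_le_mul_left h3 hc
  obtain ⟨h6, h7⟩ := log_prod_map g hg0 U.roots
  have h8 : Real.log (U.roots.map g).prod ≤ N * Real.log (2 * B) := by
    rw [← Real.log_pow]
    exact Real.log_le_log h6 h5
  have h9 : ∀ t, Real.log (max r (vC (t - ζ))) ≤ Real.log (g t) + Real.log 64 := by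
    intro t
    rw [← Real.log_mul (hg0 t).ne' (by norm_num)]
    apply Real.log_le_log (lt_max_of_lt_left hr)
    show max r ‖t - ζ‖ ≤ g t * 64
    rw [hg]
    split_ifs with h
    · apply max_le <;> linarith
    · have := not_lt.1 h
      apply max_le <;> linarith
  have h10 := sum_le (fun t => Real.log (max r (vC (t - ζ)))) (fun t => Real.log (g t)) U.roots h9
  rw [h7, hcard] at h10
  unfold Harm
  rw [hcard]
  have h11 : max r (vC (x - ζ)) = B := hB.symm
  rw [h11]
  refine h10.trans ?_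
  have h12 : Real.log (2 * B) = Real.log 2 + Real.log B := Real.log_mul (by norm_num) hB0.ne'
  have h13 : Real.log 128 = Real.log 2 + Real.log 64 := by
    rw [← Real.log_mul (by norm_num) (by norm_num)]
    norm_num
  rw [h13]
  rw [h12] at h8
  linarith

end Pool.Agent.MNT.H91
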